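import Mathlib

set_option autoImplicit false

/-! Short character sums. -/

namespace Pool.Agent.Q213.CC

open Finset

/-- the sum of `χ` over `M < a ≤ M + H` -/
noncomputable def cs {q : ℕ} (χ : DirichletCharacter ℂ q) (M H : ℕ) : ℂ :=
  ∑ a ∈ Ioc M (M + H), χ (a : ZMod q)

lemma cs_eq {q : ℕ} (χ : DirichletCharacter ℂ q) (M H : ℕ) :
    cs χ M H = ∑ b ∈ range H, χ (((M + 1 : ℕ) : ZMod q) + (b : ZMod q)) := by
  unfold cs
  have h1 : Ioc M (M + H) = (range H).image (fun b => M + 1 + b) := by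
    ext a
    rw [mem_Ioc, mem_image]
    constructor
    · rintro ⟨h1, h2⟩
      exact ⟨a - (M + 1), mem_range.2 (by omega), by omega⟩
    · rintro ⟨b, hb, rfl⟩
      rw [mem_range] at hb
      omega
  rw [h1, sum_image (fun a _ b _ h => by simpa using h)]
  refine sum_congr rfl fun b _ => ?_
  push_cast
  ring_nf

lemma cs_mod {q : ℕ} (χ : DirichletCharacter ℂ q) (M H : ℕ) : cs χ M H = cs χ (M % q) H := by
  rw [cs_eq, cs_eq]
  push_cast
  rw [ZMod.natCast_mod]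

lemma cs_norm_le {q : ℕ} (χ : DirichletCharacter ℂ q) (M H : ℕ) : ‖cs χ M H‖ ≤ H := by
  unfold cs
  refine (norm_sum_le _ _).trans ?_
  calc ∑ a ∈ Ioc M (M + H), ‖χ (a : ZMod q)‖ ≤ ∑ a ∈ Ioc M (M + H), (1 : ℝ) :=
        sum_le_sum fun a _ => χ.norm_le_one _
    _ = H := by rw [sum_const, Nat.card_Ioc, nsmul_eq_mul, mul_one]; congr 1; omega

lemma cs_add {q : ℕ} (χ : DirichletCharacter ℂ q) (M H j : ℕ) :
    ‖cs χ M (H + j)‖ ≤ ‖cs χ M H‖ + j := by
  have h1 : cs χ M (H + j) = cs χ M H + cs χ (M + H) j := by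
    unfold cs
    rw [← add_assoc, ← sum_Ioc_consecutive _ (by omega : M ≤ M + H) (by omega : M + H ≤ M + H + j)]
  rw [h1]
  exact (norm_add_le _ _).trans (by linarith [cs_norm_le χ (M + H) j])

end Pool.Agent.Q213.CC
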