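import Pool.Agent.TH894.NE5
import Pool.Agent.Q213.CC.Cs
import Pool.Agent.W27.BG.Good
import Pool.Agent.H471R4.BW.MOM
import Pool.Agent.H471R4.BW.TUP

set_option autoImplicit false

/-! Short character sums at positions with a few changed digits: moments. -/

namespace Pool.Agent.Q213.CC

open Finset
open Pool.Agent.H471R4.BW

/-- the moment bound of Davenport and Erdős from Weil's bound -/
lemma moment (p : ℕ) [Fact p.Prime] (χ : DirichletCharacter ℂ p) (hχ : χ ≠ 1) (r H : ℕ)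
    (hr : 1 ≤ r) (hH : H ≤ p) : ∑ u ∈ range p, ‖cs χ u H‖ ^ (2 * r) ≤
      (r : ℝ) ^ (2 * r) * (H : ℝ) ^ r * p + 2 * r * (H : ℝ) ^ (2 * r) * Real.sqrt p := by
  have hC : Complete p χ r H (2 * r) := by
    intro b c hb hc hu
    exact Pool.Agent.W27.BG.complete_all p χ hχ r b c (fun i => (hb i).trans_le hH)
      (fun i => (hc i).trans_le hH) hu
  refine le_trans (le_of_eq ?_) (mom tup p χ r H (2 * r) hr (by positivity) hC)
  have h1 : ∑ u ∈ range p, ‖cs χ u H‖ ^ (2 * r) =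
      ∑ x : ZMod p, ‖∑ b ∈ range H, χ (x + 1 + (b : ZMod p))‖ ^ (2 * r) := by
    refine sum_bij' (fun u _ => (u : ZMod p)) (fun x _ => x.val) (fun u _ => mem_univ _)
      (fun x _ => mem_range.2 (ZMod.val_lt x)) ?_ ?_ ?_
    · intro u hu
      exact ZMod.val_cast_of_lt (mem_range.1 hu)
    · intro x _
      exact ZMod.natCast_zmod_val x
    · intro u _
      rw [cs_eq]
      push_cast
      rfl
  rw [h1]
  exact (Equiv.sum_comp (Equiv.addRight (1 : ZMod p))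
    (fun x => ‖∑ b ∈ range H, χ (x + (b : ZMod p))‖ ^ (2 * r)))

/-- the average of the moments over the lengths up to `W` and the characters in `X` -/
noncomputable def GG (n W : ℕ) (L : ℝ) (X : (p : ℕ) → Finset (DirichletCharacter ℂ p)) (p M : ℕ) :
    ℝ :=
  1 / (L * W) * ∑ χ ∈ X p, ∑ H ∈ Icc 1 W, (‖cs χ M H‖ / W) ^ (2 * n)

lemma GG_nonneg (n W : ℕ) (L : ℝ) (hL : 0 < L)
    (X : (p : ℕ) → Finset (DirichletCharacter ℂ p)) (p M : ℕ) : 0 ≤ GG n W L X p M := by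
  unfold GG
  have : 0 ≤ ∑ χ ∈ X p, ∑ H ∈ Icc 1 W, (‖cs χ M H‖ / W) ^ (2 * n) :=
    sum_nonneg fun χ _ => sum_nonneg fun H _ => by positivity
  positivity

lemma GG_le_one (n W : ℕ) (L : ℝ) (hL : 0 < L) (hW : 1 ≤ W)
    (X : (p : ℕ) → Finset (DirichletCharacter ℂ p)) (p M : ℕ) (hX : ((X p).card : ℝ) ≤ L) :
    GG n W L X p M ≤ 1 := by
  have hW0 : (0 : ℝ) < W := by exact_mod_cast hW
  unfold GG
  have h1 : ∑ χ ∈ X p, ∑ H ∈ Icc 1 W, (‖cs χ M H‖ / W) ^ (2 * n) ≤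
      ∑ χ ∈ X p, ∑ H ∈ Icc 1 W, (1 : ℝ) := by
    refine sum_le_sum fun χ _ => sum_le_sum fun H hH => ?_
    rw [mem_Icc] at hH
    apply pow_le_one₀ (by positivity)
    rw [div_le_one hW0]
    refine (cs_norm_le χ M H).trans ?_
    exact_mod_cast hH.2
  rw [sum_const, sum_const, Nat.card_Icc, nsmul_eq_mul, nsmul_eq_mul] at h1
  have h2 : ((W + 1 - 1 : ℕ) : ℝ) = W := by simp
  rw [h2, mul_one] at h1
  calc 1 / (L * W) * ∑ χ ∈ X p, ∑ H ∈ Icc 1 W, (‖cs χ M H‖ / W) ^ (2 * n)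
      ≤ 1 / (L * W) * (L * W) := by
        refine mul_le_mul_of_nonneg_left (h1.trans ?_) (by positivity)
        exact mul_le_mul_of_nonneg_right hX hW0.le
    _ = 1 := by field_simp

/-- the mean over the positions -/
lemma GG_mean (n W : ℕ) (hn : 1 ≤ n) (L : ℝ) (hL : 0 < L) (hW : 1 ≤ W)
    (X : (p : ℕ) → Finset (DirichletCharacter ℂ p)) (p : ℕ) (hp : p.Prime) (hWp : W ≤ p)
    (hX : ((X p).card : ℝ) ≤ L) (hX1 : ∀ χ ∈ X p, χ ≠ 1) :
    (∑ u ∈ range p, GG n W L X p u) / p ≤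
      (n : ℝ) ^ (2 * n) / (W : ℝ) ^ n + 2 * n / Real.sqrt p := by
  haveI : Fact p.Prime := ⟨hp⟩
  have hW0 : (0 : ℝ) < W := by exact_mod_cast hW
  have hp0 : (0 : ℝ) < p := by exact_mod_cast hp.pos
  have hsp : (0 : ℝ) < Real.sqrt p := Real.sqrt_pos.2 hp0
  have hs2 : Real.sqrt p * Real.sqrt p = p := Real.mul_self_sqrt hp0.le
  have h1 : ∑ u ∈ range p, GG n W L X p u =
      1 / (L * W) * ∑ χ ∈ X p, ∑ H ∈ Icc 1 W, ∑ u ∈ range p, (‖cs χ u H‖ / W) ^ (2 * n) := by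
    unfold GG
    rw [← mul_sum, sum_comm]
    congr 1
    refine sum_congr rfl fun χ _ => ?_
    rw [sum_comm]
  have h2 : ∀ χ ∈ X p, ∀ H ∈ Icc 1 W, ∑ u ∈ range p, (‖cs χ u H‖ / W) ^ (2 * n) ≤
      p * ((n : ℝ) ^ (2 * n) / (W : ℝ) ^ n + 2 * n / Real.sqrt p) := by
    intro χ hχ H hH
    rw [mem_Icc] at hH
    have hHW : (H : ℝ) ≤ W := by exact_mod_cast hH.2
    have h3 := moment p χ (hX1 χ hχ) n H hn (hH.2.trans hWp)
    have h4 : ∑ u ∈ range p, (‖cs χ u H‖ / W) ^ (2 * n) =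
        (∑ u ∈ range p, ‖cs χ u H‖ ^ (2 * n)) / (W : ℝ) ^ (2 * n) := by
      rw [sum_div]
      exact sum_congr rfl fun u _ => div_pow _ _ _
    rw [h4, div_le_iff₀ (by positivity)]
    refine h3.trans ?_
    have h5 : (n : ℝ) ^ (2 * n) * (H : ℝ) ^ n * p ≤ (n : ℝ) ^ (2 * n) * (W : ℝ) ^ n * p := by
      gcongr
    have h6 : 2 * n * (H : ℝ) ^ (2 * n) * Real.sqrt p ≤ 2 * n * (W : ℝ) ^ (2 * n) * Real.sqrt p := by
      gcongr
    have h7 : p * ((n : ℝ) ^ (2 * n) / (W : ℝ) ^ n + 2 * n / Real.sqrt p) * (W : ℝ) ^ (2 * n) =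
        (n : ℝ) ^ (2 * n) * (W : ℝ) ^ n * p + 2 * n * (W : ℝ) ^ (2 * n) * Real.sqrt p := by
      rw [mul_add, add_mul]
      congr 1
      · rw [two_mul n, pow_add (W : ℝ)]
        field_simp
      · have : (p : ℝ) * (2 * n / Real.sqrt p) = 2 * n * Real.sqrt p := by
          rw [mul_div_assoc', div_eq_iff hsp.ne']
          calc (p : ℝ) * (2 * n) = 2 * n * (Real.sqrt p * Real.sqrt p) := by
                rw [hs2]
                ring
            _ = 2 * n * Real.sqrt p * Real.sqrt p := by ring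
        rw [this]
        ring
    linarith
  have h3 : ∑ χ ∈ X p, ∑ H ∈ Icc 1 W, ∑ u ∈ range p, (‖cs χ u H‖ / W) ^ (2 * n) ≤
      L * W * (p * ((n : ℝ) ^ (2 * n) / (W : ℝ) ^ n + 2 * n / Real.sqrt p)) := by
    refine (sum_le_sum fun χ hχ => sum_le_sum fun H hH => h2 χ hχ H hH).trans ?_
    rw [sum_const, sum_const, Nat.card_Icc, nsmul_eq_mul, nsmul_eq_mul, ← mul_assoc]
    have h4 : ((W + 1 - 1 : ℕ) : ℝ) = W := by simp
    rw [h4]
    refine mul_le_mul_of_nonneg_right (mul_le_mul_of_nonneg_right hX hW0.le) ?_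
    positivity
  rw [h1, div_le_iff₀ hp0]
  calc 1 / (L * W) * ∑ χ ∈ X p, ∑ H ∈ Icc 1 W, ∑ u ∈ range p, (‖cs χ u H‖ / W) ^ (2 * n)
      ≤ 1 / (L * W) * (L * W * (p * ((n : ℝ) ^ (2 * n) / (W : ℝ) ^ n + 2 * n / Real.sqrt p))) :=
        mul_le_mul_of_nonneg_left h3 (by positivity)
    _ = ((n : ℝ) ^ (2 * n) / (W : ℝ) ^ n + 2 * n / Real.sqrt p) * p := by
        field_simp

/-- a long window of lengths with large sums -/
lemma GG_ge (n W : ℕ) (L V : ℝ) (hL : 0 < L) (hW : 1 ≤ W) (hV : 0 < V)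
    (X : (p : ℕ) → Finset (DirichletCharacter ℂ p)) (p M : ℕ) (χ : DirichletCharacter ℂ p)
    (hχ : χ ∈ X p) (H : ℕ) (hH : H ≤ W) (hb : V < ‖cs χ M H‖) :
    (V / (2 * W)) ^ (2 * n + 1) / L ≤ GG n W L X p M := by
  have hW0 : (0 : ℝ) < W := by exact_mod_cast hW
  obtain ⟨t, ht⟩ : ∃ t : ℕ, t = ⌊V / 2⌋₊ := ⟨_, rfl⟩
  have ht1 : (t : ℝ) ≤ V / 2 := by rw [ht]; exact Nat.floor_le (by positivity)
  have ht2 : V / 2 < t + 1 := by rw [ht]; exact Nat.lt_floor_add_one _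
  have htH : t < H := by
    have h1 := cs_norm_le χ M H
    have h2 : (t : ℝ) < H := by linarith
    exact_mod_cast h2
  have h1 : ∑ H' ∈ Icc (H - t) H, (V / (2 * W)) ^ (2 * n) ≤
      ∑ H' ∈ Icc 1 W, (‖cs χ M H'‖ / W) ^ (2 * n) := by
    have hsub : Icc (H - t) H ⊆ Icc 1 W := by
      intro a ha
      rw [mem_Icc] at ha ⊢
      omega
    refine (sum_le_sum fun H' hH' => ?_).trans
      (sum_le_sum_of_subset_of_nonneg hsub fun a _ _ => by positivity)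
    rw [mem_Icc] at hH'
    have h2 : V / (2 * W) ≤ ‖cs χ M H'‖ / W := by
      rw [div_le_div_iff₀ (by positivity) hW0]
      have h3 := cs_add χ M H' (H - H')
      rw [show H' + (H - H') = H by omega] at h3
      have h4 : ((H - H' : ℕ) : ℝ) ≤ t := by
        have : H - H' ≤ t := by omega
        exact_mod_cast this
      have h5 : V / 2 ≤ ‖cs χ M H'‖ := by linarith
      nlinarith
    exact pow_le_pow_left₀ (by positivity) h2 _
  rw [sum_const, Nat.card_Icc, nsmul_eq_mul] at h1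
  have h2 : ((H + 1 - (H - t) : ℕ) : ℝ) = t + 1 := by
    have : H + 1 - (H - t) = t + 1 := by omega
    rw [this]
    push_cast
    rfl
  rw [h2] at h1
  have h3 : V / 2 * (V / (2 * W)) ^ (2 * n) ≤
      ∑ χ ∈ X p, ∑ H ∈ Icc 1 W, (‖cs χ M H‖ / W) ^ (2 * n) := by
    refine le_trans ?_ (single_le_sum (f := fun χ : DirichletCharacter ℂ p =>
      ∑ H ∈ Icc 1 W, (‖cs χ M H‖ / W) ^ (2 * n)) (fun χ _ => sum_nonneg fun H _ => by positivity) hχ)
    refine le_trans ?_ h1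
    exact mul_le_mul_of_nonneg_right ht2.le (by positivity)
  unfold GG
  calc (V / (2 * W)) ^ (2 * n + 1) / L = 1 / (L * W) * (V / 2 * (V / (2 * W)) ^ (2 * n)) := by
        rw [pow_succ]
        field_simp
    _ ≤ _ := mul_le_mul_of_nonneg_left h3 (by positivity)

end Pool.Agent.Q213.CC
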