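import Pool.Agent.Q213.CC.LSMain

set_option autoImplicit false

/-! Short character sums: from primitive characters to all characters. -/

namespace Pool.Agent.Q213.CC

open Finset

lemma sum_mu (m : ℕ) (hm : m ≠ 0) :
    ∑ d ∈ m.divisors, ((ArithmeticFunction.moebius d : ℤ) : ℂ) = if m = 1 then 1 else 0 := by
  have h1 : ∑ d ∈ m.divisors, (ArithmeticFunction.moebius d : ℤ) = if m = 1 then 1 else 0 := by
    have h2 := ArithmeticFunction.coe_mul_zeta_apply (f := ArithmeticFunction.moebius) (x := m)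
    rw [← h2, ArithmeticFunction.moebius_mul_coe_zeta, ArithmeticFunction.one_apply]
  rw [← Int.cast_sum, h1]
  split_ifs <;> simp

lemma cs_imprim {q : ℕ} (hq : q ≠ 0) (χ : DirichletCharacter ℂ q) (M H : ℕ) :
    cs χ M H = ∑ d ∈ q.divisors, ((ArithmeticFunction.moebius d : ℤ) : ℂ) *
      (χ.primitiveCharacter (d : ZMod χ.conductor) *
        cs χ.primitiveCharacter (M / d) ((M + H) / d - M / d)) := by
  have h1 : ∀ a ∈ Ioc M (M + H), χ (a : ZMod q) = ∑ d ∈ q.divisors, if d ∣ a then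
      ((ArithmeticFunction.moebius d : ℤ) : ℂ) * χ.primitiveCharacter (a : ZMod χ.conductor)
      else 0 := by
    intro a ha
    have ha0 : a ≠ 0 := by
      have := (mem_Ioc.1 ha).1
      omega
    rw [← sum_filter]
    have h2 : q.divisors.filter (fun d => d ∣ a) = (Nat.gcd a q).divisors := by
      ext d
      rw [mem_filter, Nat.mem_divisors, Nat.mem_divisors, Nat.dvd_gcd_iff]
      constructor
      · rintro ⟨⟨h3, _⟩, h4⟩
        exact ⟨⟨h4, h3⟩, Nat.gcd_ne_zero_right hq⟩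
      · rintro ⟨⟨h3, h4⟩, _⟩
        exact ⟨⟨h4, hq⟩, h3⟩
    rw [h2, ← sum_mul, sum_mu _ (Nat.gcd_ne_zero_right hq)]
    by_cases hc : Nat.gcd a q = 1
    · rw [if_pos hc, one_mul]
      have hc' : IsCoprime (a : ℤ) (q : ℤ) := Nat.isCoprime_iff_coprime.2 hc
      have := DirichletCharacter.primitiveCharacter_apply_of_isCoprime χ hc'
      push_cast at this
      exact this.symm
    · rw [if_neg hc, zero_mul]
      have hc' : ¬ IsCoprime (a : ℤ) (q : ℤ) := fun h => hc (Nat.isCoprime_iff_coprime.1 h)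
      have := (DirichletCharacter.apply_eq_zero_iff χ (a : ℤ)).2 hc'
      push_cast at this
      exact this
  unfold cs
  rw [sum_congr rfl h1, sum_comm]
  refine sum_congr rfl fun d hd => ?_
  have hd0 : 0 < d := Nat.pos_of_mem_divisors hd
  rw [← sum_filter, ← mul_sum]
  congr 1
  have h3 : (Ioc M (M + H)).filter (fun a => d ∣ a) =
      (Ioc (M / d) (M / d + ((M + H) / d - M / d))).image (fun b => d * b) := by
    have h4 : M / d ≤ (M + H) / d := Nat.div_le_div_right (by omega)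
    ext a
    rw [mem_filter, mem_image, mem_Ioc]
    constructor
    · rintro ⟨⟨h5, h6⟩, ⟨b, rfl⟩⟩
      refine ⟨b, ?_, rfl⟩
      rw [mem_Ioc]
      refine ⟨(Nat.div_lt_iff_lt_mul hd0).2 (by rw [mul_comm]; exact h5), ?_⟩
      have := (Nat.le_div_iff_mul_le hd0).2 (by rw [mul_comm]; exact h6 : b * d ≤ M + H)
      omega
    · rintro ⟨b, hb, rfl⟩
      rw [mem_Ioc] at hb
      refine ⟨⟨?_, ?_⟩, dvd_mul_right d b⟩
      · have := (Nat.div_lt_iff_lt_mul hd0).1 hb.1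
        rwa [mul_comm] at this
      · have := (Nat.le_div_iff_mul_le hd0).1 (by omega : b ≤ (M + H) / d)
        rwa [mul_comm] at this
  rw [h3, sum_image (fun b _ b' _ h => Nat.eq_of_mul_eq_mul_left hd0 h), mul_sum]
  refine sum_congr rfl fun b _ => ?_
  rw [← map_mul]
  push_cast
  rfl

lemma cs_imprim_le {q : ℕ} (hq : q ≠ 0) (χ : DirichletCharacter ℂ q) (M H : ℕ) (B : ℝ)
    (hB0 : 0 ≤ B)
    (hB : ∀ M' H' : ℕ, M' ≤ M → H' ≤ H → ‖cs χ.primitiveCharacter M' H'‖ ≤ B) :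
    ‖cs χ M H‖ ≤ q.divisors.card * B := by
  rw [cs_imprim hq]
  refine (norm_sum_le _ _).trans ?_
  rw [← nsmul_eq_mul, ← sum_const]
  refine sum_le_sum fun d hd => ?_
  have hd0 : 0 < d := Nat.pos_of_mem_divisors hd
  rw [norm_mul, norm_mul]
  have h1 : ‖((ArithmeticFunction.moebius d : ℤ) : ℂ)‖ ≤ 1 := by
    rw [Complex.norm_intCast]
    have := ArithmeticFunction.abs_moebius_le_one (n := d)
    exact_mod_cast this
  have h2 : ‖χ.primitiveCharacter (d : ZMod χ.conductor)‖ ≤ 1 :=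
    χ.primitiveCharacter.norm_le_one _
  have h3 : ‖cs χ.primitiveCharacter (M / d) ((M + H) / d - M / d)‖ ≤ B := by
    refine hB _ _ (Nat.div_le_self M d) ?_
    have h4 : (M + H) / d ≤ M / d + H := by
      rw [← Nat.add_mul_div_left _ _ hd0]
      exact Nat.div_le_div_right (by nlinarith)
    omega
  calc ‖((ArithmeticFunction.moebius d : ℤ) : ℂ)‖ *
        (‖χ.primitiveCharacter (d : ZMod χ.conductor)‖ *
          ‖cs χ.primitiveCharacter (M / d) ((M + H) / d - M / d)‖)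
      ≤ 1 * (1 * B) := mul_le_mul h1 (mul_le_mul h2 h3 (norm_nonneg _) zero_le_one)
        (by positivity) zero_le_one
    _ = B := by ring

open Classical in
/-- all characters -/
theorem ls_all (n k : ℕ) (hn : 1 ≤ n) (hk : 1 ≤ k) (β : ℝ) (hβ : 1 ≤ β) (ε : ℝ) (hε : 0 < ε) :
    ∃ δ : ℝ, 0 < δ ∧ ∃ Q₀ : ℕ, ∀ Q : ℕ, Q₀ ≤ Q →
    ∃ E : (f : ℕ) → Finset (DirichletCharacter ℂ f),
    (∑ f ∈ Icc 1 Q, ((E f).card : ℝ)) ≤ (Q : ℝ) ^ ((max (k * β) (2 * n) + β - 1 - k) / n + ε) ∧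
    ∀ q : ℕ, 1 ≤ q → q ≤ Q → ∀ χ : DirichletCharacter ℂ q, χ.primitiveCharacter ∉ E χ.conductor →
    ∀ M H : ℕ, (M : ℝ) ≤ (Q : ℝ) ^ (β / n) → (H : ℝ) ≤ (Q : ℝ) ^ (1 / (n : ℝ)) →
    ‖cs χ M H‖ ≤ (Q : ℝ) ^ ((1 - δ) / n) := by
  have hn0 : (0 : ℝ) < n := by exact_mod_cast hn
  obtain ⟨δ, hδ, Q₁, h1⟩ := ls_main n k hn hk β hβ ε hε
  obtain ⟨C, hC0, hC⟩ := H353.divisor_bound_real (δ / (4 * n)) (by positivity)
  have hev : ∀ᶠ Q : ℕ in Filter.atTop, C ≤ (Q : ℝ) ^ (δ / (4 * n)) := by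
    have h1 : Filter.Tendsto (fun x : ℝ => x ^ (δ / (4 * n))) Filter.atTop Filter.atTop :=
      tendsto_rpow_atTop (by positivity)
    exact (h1.comp tendsto_natCast_atTop_atTop).eventually (Filter.eventually_ge_atTop _)
  obtain ⟨Q₂, hQ₂⟩ := Filter.eventually_atTop.1 hev
  refine ⟨δ / 2, by positivity, Q₁ + Q₂ + 1, fun Q hQ => ⟨_, h1 Q (by omega), ?_⟩⟩
  intro q hq1 hqQ χ hχ M H hM hH
  have hQ1 : (1 : ℝ) ≤ Q := by exact_mod_cast (by omega : 1 ≤ Q)
  have hQ0 : (0 : ℝ) < Q := by linarith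
  haveI : NeZero q := ⟨by omega⟩
  have hcond : 1 ≤ χ.conductor := Nat.one_le_iff_ne_zero.2 (DirichletCharacter.conductor_ne_zero χ)
  have h2 : ∀ M' H' : ℕ, M' ≤ M → H' ≤ H →
      ‖cs χ.primitiveCharacter M' H'‖ ≤ (Q : ℝ) ^ ((1 - δ) / n) := by
    intro M' H' hM' hH'
    by_contra hcon
    rw [not_le] at hcon
    apply hχ
    unfold exc prim
    rw [mem_filter, mem_filter]
    refine ⟨⟨mem_univ _, χ.primitiveCharacter_isPrimitive⟩, M', H', ?_, ?_, hcon⟩
    · refine Nat.le_floor (le_trans ?_ hM)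
      exact_mod_cast hM'
    · refine Nat.le_floor (le_trans ?_ hH)
      exact_mod_cast hH'
  refine (cs_imprim_le (by omega) χ M H _ (by positivity) h2).trans ?_
  have h3 : (q.divisors.card : ℝ) ≤ (Q : ℝ) ^ (δ / (4 * n)) * (Q : ℝ) ^ (δ / (4 * n)) := by
    refine (hC q (by omega)).trans ?_
    refine mul_le_mul (hQ₂ Q (by omega)) ?_ (by positivity) (by positivity)
    exact Real.rpow_le_rpow (Nat.cast_nonneg q) (by exact_mod_cast hqQ) (by positivity)
  calc (q.divisors.card : ℝ) * (Q : ℝ) ^ ((1 - δ) / n) ≤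
        (Q : ℝ) ^ (δ / (4 * n)) * (Q : ℝ) ^ (δ / (4 * n)) * (Q : ℝ) ^ ((1 - δ) / n) :=
        mul_le_mul_of_nonneg_right h3 (by positivity)
    _ = (Q : ℝ) ^ ((1 - δ / 2) / n) := by
        rw [← Real.rpow_add hQ0, ← Real.rpow_add hQ0]
        congr 1
        field_simp
        ring

end Pool.Agent.Q213.CC
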