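import Pool.Agent.Helper112.MultLS
import Pool.Agent.H353R2.Z2
import Pool.Agent.Q213.CC.Cs

set_option autoImplicit false

/-! Short character sums for almost all primitive characters, uniformly near the origin. -/

namespace Pool.Agent.Q213.CC

open Finset

/-- number of representations of `m` as a product of `k` factors in `(M, M + H]` -/
noncomputable def rep (k M H m : ℕ) : ℕ :=
  ((Fintype.piFinset (fun _ : Fin k => Ioc M (M + H))).filter (fun t => ∏ i, t i = m)).card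

lemma cs_pow {q : ℕ} (χ : DirichletCharacter ℂ q) (k M H : ℕ) :
    cs χ M H ^ k = ∑ m ∈ Icc 1 ((M + H) ^ k), (rep k M H m : ℂ) * χ (m : ZMod q) := by
  have h1 : cs χ M H ^ k = ∑ t ∈ Fintype.piFinset (fun _ : Fin k => Ioc M (M + H)),
      χ ((∏ i, t i : ℕ) : ZMod q) := by
    rw [← Fin.prod_const, cs, Finset.prod_univ_sum]
    refine sum_congr rfl fun t _ => ?_
    push_cast
    rw [map_prod]
  have h2 : ∀ t ∈ Fintype.piFinset (fun _ : Fin k => Ioc M (M + H)),
      (∏ i, t i : ℕ) ∈ Icc 1 ((M + H) ^ k) := by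
    intro t ht
    rw [Fintype.mem_piFinset] at ht
    rw [mem_Icc]
    constructor
    · refine Nat.one_le_iff_ne_zero.2 (Finset.prod_ne_zero_iff.2 fun i _ => ?_)
      have := (mem_Ioc.1 (ht i)).1
      omega
    · calc ∏ i, t i ≤ ∏ _i : Fin k, (M + H) :=
            Finset.prod_le_prod' fun i _ => (mem_Ioc.1 (ht i)).2
        _ = (M + H) ^ k := by rw [prod_const, card_univ, Fintype.card_fin]
  rw [h1, ← sum_fiberwise_of_maps_to h2]
  refine sum_congr rfl fun m _ => ?_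
  have h3 : ∀ t ∈ (Fintype.piFinset (fun _ : Fin k => Ioc M (M + H))).filter
      (fun t => ∏ i, t i = m), χ ((∏ i, t i : ℕ) : ZMod q) = χ (m : ZMod q) := by
    intro t ht
    rw [mem_filter] at ht
    rw [ht.2]
  rw [sum_congr rfl h3, sum_const, nsmul_eq_mul]
  rfl

lemma rep_le (k M H m : ℕ) (hm : m ≠ 0) : rep k M H m ≤ m.divisors.card ^ k := by
  unfold rep
  have h1 : (Fintype.piFinset (fun _ : Fin k => Ioc M (M + H))).filter
      (fun t => ∏ i, t i = m) ⊆ Fintype.piFinset (fun _ : Fin k => m.divisors) := by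
    intro t ht
    rw [mem_filter] at ht
    rw [Fintype.mem_piFinset]
    intro i
    rw [Nat.mem_divisors]
    exact ⟨ht.2 ▸ Finset.dvd_prod_of_mem _ (mem_univ i), hm⟩
  refine (card_le_card h1).trans (le_of_eq ?_)
  rw [Fintype.card_piFinset, prod_const, card_univ, Fintype.card_fin]

lemma rep_sum (k M H : ℕ) : ∑ m ∈ Icc 1 ((M + H) ^ k), rep k M H m ≤ H ^ k := by
  unfold rep
  rw [← card_biUnion]
  · refine (card_le_card (t := Fintype.piFinset (fun _ : Fin k => Ioc M (M + H))) ?_).trans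
      (le_of_eq ?_)
    · intro t ht
      rw [mem_biUnion] at ht
      obtain ⟨m, -, h⟩ := ht
      exact (mem_filter.1 h).1
    · rw [Fintype.card_piFinset, prod_const, card_univ, Fintype.card_fin, Nat.card_Ioc]
      congr 1
      omega
  · intro m _ m' _ hne
    change Disjoint _ _
    rw [disjoint_left]
    intro t h1 h2
    exact hne ((mem_filter.1 h1).2.symm.trans (mem_filter.1 h2).2)

open Classical in
/-- the primitive characters modulo `f` -/
noncomputable def prim (f : ℕ) : Finset (DirichletCharacter ℂ f) :=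
  (univ : Finset (DirichletCharacter ℂ f)).filter (fun χ => χ.IsPrimitive)

open Classical in
/-- the large sieve for powers of short sums -/
lemma ls_pow (k M H F : ℕ) (D : ℝ)
    (hD : ∀ m ∈ Icc 1 ((M + H) ^ k), (rep k M H m : ℝ) ≤ D) :
    ∑ f ∈ Icc 1 F, ∑ χ ∈ prim f, ‖cs χ M H‖ ^ (2 * k) ≤
      6 * (((M + H : ℕ) : ℝ) ^ k + (F : ℝ) ^ 2) * (D * (H : ℝ) ^ k) := by
  have h1 := Pool.Agent.Helper112.mult_large_sieve ((M + H) ^ k) F (fun m => (rep k M H m : ℂ))
  have h2 : ∑ f ∈ Icc 1 F, ∑ χ ∈ prim f, ‖cs χ M H‖ ^ (2 * k) ≤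
      ∑ f ∈ Icc 1 F, ((f : ℝ) / (Nat.totient f : ℝ)) *
      ∑ χ ∈ (univ : Finset (DirichletCharacter ℂ f)).filter (fun χ => χ.IsPrimitive),
        ‖∑ n ∈ Icc 1 ((M + H) ^ k), (rep k M H n : ℂ) * χ (n : ZMod f)‖ ^ 2 := by
    refine sum_le_sum fun f hf => ?_
    rw [mem_Icc] at hf
    have h3 : ∑ χ ∈ prim f, ‖cs χ M H‖ ^ (2 * k) =
        ∑ χ ∈ (univ : Finset (DirichletCharacter ℂ f)).filter (fun χ => χ.IsPrimitive),
        ‖∑ n ∈ Icc 1 ((M + H) ^ k), (rep k M H n : ℂ) * χ (n : ZMod f)‖ ^ 2 := by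
      unfold prim
      refine sum_congr rfl fun χ _ => ?_
      rw [← cs_pow, norm_pow, ← pow_mul, mul_comm]
    rw [h3]
    have ht : (0 : ℝ) < Nat.totient f := by
      exact_mod_cast Nat.totient_pos.2 (by omega : 0 < f)
    have h4 : (1 : ℝ) ≤ (f : ℝ) / (Nat.totient f : ℝ) := by
      rw [one_le_div ht]
      exact_mod_cast Nat.totient_le f
    exact le_mul_of_one_le_left (sum_nonneg fun χ _ => by positivity) h4
  refine h2.trans (h1.trans ?_)
  push_cast
  refine mul_le_mul_of_nonneg_left ?_ (by positivity)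
  calc ∑ n ∈ Icc 1 ((M + H) ^ k), ‖(rep k M H n : ℂ)‖ ^ 2
      ≤ ∑ n ∈ Icc 1 ((M + H) ^ k), D * (rep k M H n : ℝ) := by
        refine sum_le_sum fun n hn => ?_
        rw [Complex.norm_natCast, sq]
        exact mul_le_mul_of_nonneg_right (hD n hn) (Nat.cast_nonneg _)
    _ = D * ((∑ n ∈ Icc 1 ((M + H) ^ k), rep k M H n : ℕ) : ℝ) := by
        rw [← mul_sum]
        push_cast
        rfl
    _ ≤ D * (H : ℝ) ^ k := by
        rcases Nat.eq_zero_or_pos (M + H) with h0 | h0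
        · have hM : M = 0 := by omega
          have hH : H = 0 := by omega
          subst hM hH
          rcases Nat.eq_zero_or_pos k with hk | hk
          · subst hk
            have h5 : (0 : ℝ) ≤ D := (Nat.cast_nonneg _).trans (hD 1 (by simp))
            refine mul_le_mul_of_nonneg_left ?_ h5
            exact_mod_cast rep_sum 0 0 0
          · have : Icc 1 ((0 + 0) ^ k) = ∅ := by
              rw [Nat.add_zero, zero_pow (by omega)]
              rfl
            rw [this, sum_empty]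
            simp [zero_pow (by omega : k ≠ 0)]
        · have h5 : (0 : ℝ) ≤ D := (Nat.cast_nonneg _).trans
            (hD 1 (mem_Icc.2 ⟨le_rfl, Nat.one_le_pow _ _ h0⟩))
          refine mul_le_mul_of_nonneg_left ?_ h5
          exact_mod_cast rep_sum k M H

lemma block_ge {q : ℕ} (χ : DirichletCharacter ℂ q) (M H t : ℕ) (V : ℝ) (ht : (t : ℝ) ≤ V / 4)
    (hb : V < ‖cs χ M H‖) (i j : ℕ) (hi : i ≤ t) (hj : j ≤ t) :
    i + j ≤ H ∧ V / 2 ≤ ‖cs χ (M + i) (H - (i + j))‖ := by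
  have hi' : (i : ℝ) ≤ t := by exact_mod_cast hi
  have hj' : (j : ℝ) ≤ t := by exact_mod_cast hj
  have h0 : (0 : ℝ) ≤ t := Nat.cast_nonneg t
  have hH := cs_norm_le χ M H
  have hij : i + j ≤ H := by
    have : (i : ℝ) + j ≤ H := by linarith
    exact_mod_cast this
  refine ⟨hij, ?_⟩
  have h1 : cs χ M H = cs χ M i + cs χ (M + i) (H - (i + j)) + cs χ (M + H - j) j := by
    unfold cs
    have e1 : M + i + (H - (i + j)) = M + H - j := by omega
    have e2 : M + H - j + j = M + H := by omega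
    rw [e1, e2, sum_Ioc_consecutive _ (by omega) (by omega), sum_Ioc_consecutive _ (by omega) (by omega)]
  have h2 : ‖cs χ M H‖ ≤ i + ‖cs χ (M + i) (H - (i + j))‖ + j := by
    rw [h1]
    refine (norm_add_le _ _).trans (add_le_add ((norm_add_le _ _).trans ?_) (cs_norm_le _ _ _))
    exact add_le_add_left (cs_norm_le _ _ _) _
  linarith

open Classical in
/-- the primitive characters with a large sum -/
noncomputable def exc (X W : ℕ) (V : ℝ) (f : ℕ) : Finset (DirichletCharacter ℂ f) :=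
  (prim f).filter (fun χ => ∃ M H : ℕ, M ≤ X ∧ H ≤ W ∧ V < ‖cs χ M H‖)

lemma one_exc {q : ℕ} (χ : DirichletCharacter ℂ q) (k X W M H t : ℕ) (V : ℝ) (hV : 0 < V)
    (ht : (t : ℝ) ≤ V / 4) (hM : M ≤ X) (hH : H ≤ W) (hb : V < ‖cs χ M H‖) :
    ((t : ℝ) + 1) ^ 2 * (V / 2) ^ (2 * k) ≤
      ∑ w ∈ range (X + W + 1) ×ˢ range (W + 1), ‖cs χ w.1 w.2‖ ^ (2 * k) := by
  have h1 : ((t : ℝ) + 1) ^ 2 * (V / 2) ^ (2 * k) =
      ∑ w ∈ range (t + 1) ×ˢ range (t + 1), (V / 2) ^ (2 * k) := by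
    rw [sum_const, card_product, card_range, nsmul_eq_mul]
    push_cast
    ring
  have h2 : ∑ w ∈ range (t + 1) ×ˢ range (t + 1), (V / 2) ^ (2 * k) ≤
      ∑ w ∈ range (t + 1) ×ˢ range (t + 1), ‖cs χ (M + w.1) (H - (w.1 + w.2))‖ ^ (2 * k) := by
    refine sum_le_sum fun w hw => ?_
    rw [mem_product, mem_range, mem_range] at hw
    exact pow_le_pow_left₀ (by positivity)
      (block_ge χ M H t V ht hb w.1 w.2 (by omega) (by omega)).2 _
  rw [h1]
  refine h2.trans ?_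
  have hinj : Set.InjOn (fun w : ℕ × ℕ => (M + w.1, H - (w.1 + w.2)))
      (range (t + 1) ×ˢ range (t + 1) : Finset (ℕ × ℕ)) := by
    rintro ⟨i, j⟩ h3 ⟨i', j'⟩ h4 h5
    rw [mem_coe, mem_product, mem_range, mem_range] at h3 h4
    simp only [Prod.mk.injEq] at h5
    have h6 := (block_ge χ M H t V ht hb i j (by simp at h3; omega) (by simp at h3; omega)).1
    have h7 := (block_ge χ M H t V ht hb i' j' (by simp at h4; omega) (by simp at h4; omega)).1
    rw [Prod.mk.injEq]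
    omega
  rw [← sum_image (f := fun w : ℕ × ℕ => ‖cs χ w.1 w.2‖ ^ (2 * k)) hinj]
  refine sum_le_sum_of_subset_of_nonneg ?_ fun w _ _ => by positivity
  intro w hw
  rw [mem_image] at hw
  obtain ⟨⟨i, j⟩, h3, rfl⟩ := hw
  rw [mem_product, mem_range, mem_range] at h3
  rw [mem_product, mem_range, mem_range]
  have h6 := (block_ge χ M H t V ht hb i j (by simp at h3; omega) (by simp at h3; omega)).1
  have h7 := (block_ge χ M H t V ht hb i i (by simp at h3; omega) (by simp at h3; omega)).1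
  simp only at h3 ⊢
  omega

open Classical in
/-- the number of exceptional characters -/
lemma card_exc (k X W F t : ℕ) (V D : ℝ) (hV : 0 < V) (ht : (t : ℝ) ≤ V / 4) (ht' : V / 4 ≤ t + 1)
    (hD : ∀ m : ℕ, m ≠ 0 → m ≤ (X + 2 * W) ^ k → ((m.divisors.card : ℝ)) ^ k ≤ D) (hD0 : 0 ≤ D) :
    (∑ f ∈ Icc 1 F, ((exc X W V f).card : ℝ)) * ((V / 4) ^ 2 * (V / 2) ^ (2 * k)) ≤
      ((X : ℝ) + W + 1) * (W + 1) *
        (6 * (((X : ℝ) + 2 * W) ^ k + (F : ℝ) ^ 2) * (D * (W : ℝ) ^ k)) := by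
  have h1 : (∑ f ∈ Icc 1 F, ((exc X W V f).card : ℝ)) * ((V / 4) ^ 2 * (V / 2) ^ (2 * k)) ≤
      ∑ f ∈ Icc 1 F, ∑ χ ∈ prim f,
        ∑ w ∈ range (X + W + 1) ×ˢ range (W + 1), ‖cs χ w.1 w.2‖ ^ (2 * k) := by
    rw [sum_mul]
    refine sum_le_sum fun f _ => ?_
    rw [← nsmul_eq_mul, ← sum_const]
    refine (sum_le_sum fun χ hχ => ?_).trans
      (sum_le_sum_of_subset_of_nonneg (filter_subset _ _ : exc X W V f ⊆ prim f)
        fun χ _ _ => sum_nonneg fun w _ => by positivity)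
    unfold exc at hχ
    rw [mem_filter] at hχ
    obtain ⟨-, M, H, hM, hH, hb⟩ := hχ
    refine le_trans ?_ (one_exc χ k X W M H t V hV ht hM hH hb)
    refine mul_le_mul_of_nonneg_right ?_ (by positivity)
    exact pow_le_pow_left₀ (by positivity) ht' 2
  refine h1.trans ?_
  have h2 : ∑ f ∈ Icc 1 F, ∑ χ ∈ prim f,
        ∑ w ∈ range (X + W + 1) ×ˢ range (W + 1), ‖cs χ w.1 w.2‖ ^ (2 * k) =
      ∑ w ∈ range (X + W + 1) ×ˢ range (W + 1), ∑ f ∈ Icc 1 F, ∑ χ ∈ prim f,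
        ‖cs χ w.1 w.2‖ ^ (2 * k) := by
    calc ∑ f ∈ Icc 1 F, ∑ χ ∈ prim f,
        ∑ w ∈ range (X + W + 1) ×ˢ range (W + 1), ‖cs χ w.1 w.2‖ ^ (2 * k)
        = ∑ f ∈ Icc 1 F, ∑ w ∈ range (X + W + 1) ×ˢ range (W + 1),
            ∑ χ ∈ prim f, ‖cs χ w.1 w.2‖ ^ (2 * k) := sum_congr rfl fun f _ => sum_comm
      _ = _ := sum_comm
  rw [h2]
  have h3 : ∀ w ∈ range (X + W + 1) ×ˢ range (W + 1), ∑ f ∈ Icc 1 F, ∑ χ ∈ prim f,
        ‖cs χ w.1 w.2‖ ^ (2 * k) ≤
      6 * (((X : ℝ) + 2 * W) ^ k + (F : ℝ) ^ 2) * (D * (W : ℝ) ^ k) := by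
    rintro ⟨u, h⟩ hw
    rw [mem_product, mem_range, mem_range] at hw
    simp only at hw
    have huh : u + h ≤ X + 2 * W := by omega
    have h4 := ls_pow k u h F D (by
      intro m hm
      rw [mem_Icc] at hm
      refine le_trans ?_ (hD m (by omega) (hm.2.trans (Nat.pow_le_pow_left huh k)))
      exact_mod_cast rep_le k u h m (by omega))
    refine h4.trans ?_
    have h5 : ((u + h : ℕ) : ℝ) ≤ X + 2 * W := by exact_mod_cast huh
    have h6 : (h : ℝ) ≤ W := by exact_mod_cast (by omega : h ≤ W)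
    have h7 : ((u + h : ℕ) : ℝ) ^ k ≤ ((X : ℝ) + 2 * W) ^ k :=
      pow_le_pow_left₀ (Nat.cast_nonneg _) h5 _
    have h8 : (h : ℝ) ^ k ≤ (W : ℝ) ^ k := pow_le_pow_left₀ (Nat.cast_nonneg _) h6 _
    refine mul_le_mul (mul_le_mul_of_nonneg_left (by linarith) (by norm_num))
      (mul_le_mul_of_nonneg_left h8 hD0) (by positivity) (by positivity)
  refine (sum_le_sum h3).trans ?_
  rw [sum_const, card_product, card_range, card_range, nsmul_eq_mul]
  push_cast
  exact le_rfl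

end Pool.Agent.Q213.CC
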