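import Pool.Agent.Q213.CC.LS

set_option autoImplicit false

/-! Short character sums for almost all primitive characters, uniformly near the origin: numbers. -/

namespace Pool.Agent.Q213.CC

open Finset

open Classical in
theorem ls_main (n k : ℕ) (hn : 1 ≤ n) (hk : 1 ≤ k) (β : ℝ) (hβ : 1 ≤ β) (ε : ℝ) (hε : 0 < ε) :
    ∃ δ : ℝ, 0 < δ ∧ ∃ Q₀ : ℕ, ∀ Q : ℕ, Q₀ ≤ Q →
    (∑ f ∈ Icc 1 Q, ((exc ⌊(Q : ℝ) ^ (β / n)⌋₊ ⌊(Q : ℝ) ^ (1 / (n : ℝ))⌋₊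
      ((Q : ℝ) ^ ((1 - δ) / n)) f).card : ℝ)) ≤
      (Q : ℝ) ^ ((max (k * β) (2 * n) + β - 1 - k) / n + ε) := by
  have hn0 : (0 : ℝ) < n := by exact_mod_cast hn
  have hk0 : (0 : ℝ) < k := by exact_mod_cast hk
  have hβ0 : (0 : ℝ) < β := by linarith
  obtain ⟨δ, hδd⟩ : ∃ δ : ℝ, δ = n * ε / (8 * (k + 1)) := ⟨_, rfl⟩
  obtain ⟨η, hηd⟩ : ∃ η : ℝ, η = n * ε / (4 * β * k ^ 2) := ⟨_, rfl⟩
  have hδ : 0 < δ := by rw [hδd]; positivity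
  have hη : 0 < η := by rw [hηd]; positivity
  obtain ⟨C, hC0, hC⟩ := H353.divisor_bound_real η hη
  obtain ⟨C₁, hC₁⟩ : ∃ C₁ : ℝ, C₁ = 16 * 4 ^ k * 36 * (2 * 3 ^ k) * (C ^ k * 3 ^ (k ^ 2 * η)) := ⟨_, rfl⟩
  have hC₁0 : 0 < C₁ := by rw [hC₁]; positivity
  have hev : ∀ᶠ Q : ℕ in Filter.atTop, C₁ ≤ (Q : ℝ) ^ (ε / 2) := by
    have h1 : Filter.Tendsto (fun x : ℝ => x ^ (ε / 2)) Filter.atTop Filter.atTop :=
      tendsto_rpow_atTop (by positivity)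
    exact (h1.comp tendsto_natCast_atTop_atTop).eventually (Filter.eventually_ge_atTop _)
  obtain ⟨Q₁, hQ₁⟩ := Filter.eventually_atTop.1 hev
  refine ⟨δ, hδ, Q₁ + 1, fun Q hQ => ?_⟩
  have hQC := hQ₁ Q (by omega)
  have hQ1 : (1 : ℝ) ≤ Q := by exact_mod_cast (by omega : 1 ≤ Q)
  have hQ0 : (0 : ℝ) < Q := by linarith
  obtain ⟨z, hz⟩ : ∃ z : ℝ, z = (Q : ℝ) ^ (β / n) := ⟨_, rfl⟩
  obtain ⟨y, hy⟩ : ∃ y : ℝ, y = (Q : ℝ) ^ (1 / (n : ℝ)) := ⟨_, rfl⟩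
  obtain ⟨V, hV⟩ : ∃ V : ℝ, V = (Q : ℝ) ^ ((1 - δ) / n) := ⟨_, rfl⟩
  rw [← hz, ← hy, ← hV]
  have hz0 : 0 < z := by rw [hz]; positivity
  have hy0 : 0 < y := by rw [hy]; positivity
  have hV0 : 0 < V := by rw [hV]; positivity
  have hy1 : 1 ≤ y := by rw [hy]; exact Real.one_le_rpow hQ1 (by positivity)
  have hyz : y ≤ z := by
    rw [hy, hz]
    exact Real.rpow_le_rpow_of_exponent_le hQ1 (div_le_div_of_nonneg_right hβ hn0.le)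
  have hX : (⌊z⌋₊ : ℝ) ≤ z := Nat.floor_le hz0.le
  have hW : (⌊y⌋₊ : ℝ) ≤ y := Nat.floor_le hy0.le
  obtain ⟨X, hXd⟩ : ∃ X : ℕ, X = ⌊z⌋₊ := ⟨_, rfl⟩
  obtain ⟨W, hWd⟩ : ∃ W : ℕ, W = ⌊y⌋₊ := ⟨_, rfl⟩
  rw [← hXd] at hX ⊢
  rw [← hWd] at hW ⊢
  have hX0 : (0 : ℝ) ≤ X := Nat.cast_nonneg X
  have hW0 : (0 : ℝ) ≤ W := Nat.cast_nonneg W
  have hXW : (X : ℝ) + 2 * W ≤ 3 * z := by linarith
  obtain ⟨D, hD⟩ : ∃ D : ℝ, D = C ^ k * (3 * z) ^ (k ^ 2 * η) := ⟨_, rfl⟩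
  have hD0 : 0 ≤ D := by rw [hD]; positivity
  have hDm : ∀ m : ℕ, m ≠ 0 → m ≤ (X + 2 * W) ^ k → ((m.divisors.card : ℝ)) ^ k ≤ D := by
    intro m hm hm'
    have h1 : (m : ℝ) ≤ (3 * z) ^ k := by
      have h2 : (m : ℝ) ≤ ((X : ℝ) + 2 * W) ^ k := by exact_mod_cast hm'
      exact h2.trans (pow_le_pow_left₀ (by positivity) hXW _)
    have h3 : (m.divisors.card : ℝ) ≤ C * ((3 * z) ^ k) ^ η := by
      refine (hC m hm).trans ?_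
      exact mul_le_mul_of_nonneg_left (Real.rpow_le_rpow (Nat.cast_nonneg m) h1 hη.le) hC0.le
    refine (pow_le_pow_left₀ (Nat.cast_nonneg _) h3 k).trans (le_of_eq ?_)
    rw [hD, mul_pow]
    congr 1
    rw [← Real.rpow_natCast (3 * z) k, ← Real.rpow_mul (by positivity), ← Real.rpow_natCast,
      ← Real.rpow_mul (by positivity)]
    congr 1
    ring
  have hmain := card_exc k X W Q ⌊V / 4⌋₊ V D hV0 (Nat.floor_le (by positivity))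
    (Nat.lt_floor_add_one _).le hDm hD0
  obtain ⟨E, hE⟩ : ∃ E : ℝ, E = ∑ f ∈ Icc 1 Q, ((exc X W V f).card : ℝ) := ⟨_, rfl⟩
  rw [← hE] at hmain ⊢
  obtain ⟨μ, hμ⟩ : ∃ μ : ℝ, μ = max (k * β) (2 * n) / n := ⟨_, rfl⟩
  have hzk : z ^ k ≤ (Q : ℝ) ^ μ := by
    rw [hz, ← Real.rpow_natCast, ← Real.rpow_mul hQ0.le, hμ]
    refine Real.rpow_le_rpow_of_exponent_le hQ1 ?_
    rw [div_mul_eq_mul_div]
    exact div_le_div_of_nonneg_right ((le_of_eq (mul_comm _ _)).trans (le_max_left _ _)) hn0.le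
  have hQ2 : (Q : ℝ) ^ 2 ≤ (Q : ℝ) ^ μ := by
    rw [← Real.rpow_natCast, hμ]
    refine Real.rpow_le_rpow_of_exponent_le hQ1 ?_
    rw [le_div_iff₀ hn0]
    push_cast
    exact le_max_right _ _
  have h1 : ((X : ℝ) + W + 1) * (W + 1) *
        (6 * (((X : ℝ) + 2 * W) ^ k + (Q : ℝ) ^ 2) * (D * (W : ℝ) ^ k)) ≤
      (3 * z) * (2 * y) * (6 * (2 * 3 ^ k * (Q : ℝ) ^ μ) * (D * y ^ k)) := by
    have e1 : (X : ℝ) + W + 1 ≤ 3 * z := by linarith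
    have e2 : (W : ℝ) + 1 ≤ 2 * y := by linarith
    have e3 : ((X : ℝ) + 2 * W) ^ k + (Q : ℝ) ^ 2 ≤ 2 * 3 ^ k * (Q : ℝ) ^ μ := by
      have e4 : ((X : ℝ) + 2 * W) ^ k ≤ 3 ^ k * z ^ k := by
        rw [← mul_pow]
        exact pow_le_pow_left₀ (by positivity) hXW _
      have e5 : (3 : ℝ) ^ k * z ^ k ≤ 3 ^ k * (Q : ℝ) ^ μ :=
        mul_le_mul_of_nonneg_left hzk (by positivity)
      have e6 : (1 : ℝ) ≤ 3 ^ k := one_le_pow₀ (by norm_num)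
      have e7 : (Q : ℝ) ^ μ ≤ 3 ^ k * (Q : ℝ) ^ μ := le_mul_of_one_le_left (by positivity) e6
      linarith
    have e8 : (W : ℝ) ^ k ≤ y ^ k := pow_le_pow_left₀ hW0 hW _
    gcongr
  have h2 : E * V ^ (2 * k + 2) ≤ C₁ * ((Q : ℝ) ^ μ * z * y ^ (k + 1) * z ^ (k ^ 2 * η)) := by
    have e1 : (V / 4) ^ 2 * (V / 2) ^ (2 * k) = V ^ (2 * k + 2) / (16 * 4 ^ k) := by
      rw [div_pow, div_pow, pow_mul (2 : ℝ), pow_add V]
      field_simp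
      norm_num
    rw [e1, mul_div_assoc', div_le_iff₀ (by positivity)] at hmain
    refine hmain.trans ((mul_le_mul_of_nonneg_right h1 (by positivity)).trans (le_of_eq ?_))
    rw [hC₁, hD, Real.mul_rpow (by norm_num) hz0.le, pow_succ y k]
    ring
  have h3 : C₁ * ((Q : ℝ) ^ μ * z * y ^ (k + 1) * z ^ (k ^ 2 * η)) ≤
      (Q : ℝ) ^ ((max (k * β) (2 * n) + β - 1 - k) / n + ε) * V ^ (2 * k + 2) := by
    have e1 : (Q : ℝ) ^ μ * z * y ^ (k + 1) * z ^ (k ^ 2 * η) =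
        (Q : ℝ) ^ (μ + β / n + (k + 1) / n + ε / 4) := by
      rw [hz, hy, ← Real.rpow_natCast ((Q : ℝ) ^ (1 / (n : ℝ))), ← Real.rpow_mul hQ0.le,
        ← Real.rpow_mul hQ0.le, ← Real.rpow_add hQ0, ← Real.rpow_add hQ0, ← Real.rpow_add hQ0]
      congr 1
      have e2 : β / n * (k ^ 2 * η) = ε / 4 := by
        rw [hηd]
        field_simp
      rw [e2]
      push_cast
      ring
    have e3 : (Q : ℝ) ^ ((max (k * β) (2 * n) + β - 1 - k) / n + ε) * V ^ (2 * k + 2) =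
        (Q : ℝ) ^ (ε / 2) * (Q : ℝ) ^ (μ + β / n + (k + 1) / n + ε / 4) := by
      rw [hV, ← Real.rpow_natCast ((Q : ℝ) ^ ((1 - δ) / n)), ← Real.rpow_mul hQ0.le,
        ← Real.rpow_add hQ0, ← Real.rpow_add hQ0]
      congr 1
      rw [hμ]
      push_cast
      have e4 : δ * (2 * k + 2) / n = ε / 4 := by
        rw [hδd]
        field_simp
        ring
      have e5 : (1 - δ) / n * (2 * k + 2) = (2 * k + 2) / n - δ * (2 * k + 2) / n := by ring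
      rw [e5, e4]
      field_simp
      ring
    rw [e1, e3]
    exact mul_le_mul_of_nonneg_right hQC (by positivity)
  exact le_of_mul_le_mul_right (h2.trans h3) (by positivity)

end Pool.Agent.Q213.CC
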