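import Pool.Agent.Q213.CC.Base

set_option autoImplicit false

/-! Short character sums at positions with a few changed digits: the law. -/

namespace Pool.Agent.Q213.CC

open Finset
open Pool.Agent.TH894.NE (mean Per)

open Classical in
/-- the primes up to `x` with a large sum -/
noncomputable def bad (n : ℕ) (δ : ℝ) (X : (p : ℕ) → Finset (DirichletCharacter ℂ p))
    (x M : ℕ) : Finset ℕ :=
  (range (x + 1)).filter (fun p => p.Prime ∧ ∃ χ ∈ X p, ∃ H : ℕ,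
    (H : ℝ) ≤ (x : ℝ) ^ (1 / (n : ℝ)) ∧ (x : ℝ) ^ ((1 - δ) / n) < ‖cs χ M H‖)

lemma sum_inv_sqrt (x : ℕ) : ∑ m ∈ Icc 1 x, 1 / Real.sqrt m ≤ 2 * Real.sqrt x := by
  induction x with
  | zero => simp
  | succ x ih =>
    rw [sum_Icc_succ_top (by omega)]
    have h0 : (0 : ℝ) ≤ x := Nat.cast_nonneg x
    have h1 : 0 < Real.sqrt ((x + 1 : ℕ) : ℝ) := Real.sqrt_pos.2 (by positivity)
    have h2 : Real.sqrt ((x + 1 : ℕ) : ℝ) * Real.sqrt ((x + 1 : ℕ) : ℝ) = x + 1 := by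
      rw [Real.mul_self_sqrt (by positivity)]
      push_cast
      ring
    have h3 : Real.sqrt (x : ℝ) * Real.sqrt (x : ℝ) = x := Real.mul_self_sqrt h0
    have h4 : 1 / Real.sqrt ((x + 1 : ℕ) : ℝ) ≤
        2 * (Real.sqrt ((x + 1 : ℕ) : ℝ) - Real.sqrt x) := by
      rw [div_le_iff₀ h1]
      nlinarith [sq_nonneg (Real.sqrt ((x + 1 : ℕ) : ℝ) - Real.sqrt x), Real.sqrt_nonneg (x : ℝ)]
    linarith

lemma mean_one (p : ℕ) (F : ℕ → ℝ) :
    mean 1 p (fun m => F (m 0)) = (∑ u ∈ range p, F u) / p := by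
  unfold mean
  rw [pow_one]
  have h1 : ∑ m ∈ Pool.Agent.TH894.NE.box 1 p, F (m 0) = ∑ u ∈ range p, F u := by
    refine sum_bij' (fun m _ => m 0) (fun u _ => fun _ => u) ?_ ?_ ?_ ?_ ?_
    · intro m hm
      unfold Pool.Agent.TH894.NE.box at hm
      rw [Fintype.mem_piFinset] at hm
      exact hm 0
    · intro u hu
      unfold Pool.Agent.TH894.NE.box
      rw [Fintype.mem_piFinset]
      exact fun _ => hu
    · intro m _
      funext i
      rw [Fin.fin_one_eq_zero i]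
    · intro u _
      rfl
    · intro m _
      rfl
  rw [h1]
  ring

/-- the sum of the means -/
lemma sum_mean (n : ℕ) (hn : 2 ≤ n) (x : ℕ) (hx : 1 ≤ x) (W : ℕ)
    (hW : W = ⌊(x : ℝ) ^ (1 / (n : ℝ))⌋₊) (L : ℝ) (hL : 0 < L)
    (X : (p : ℕ) → Finset (DirichletCharacter ℂ p))
    (hX : ∀ p : ℕ, p.Prime → ((X p).card : ℝ) ≤ L ∧ ∀ χ ∈ X p, χ ≠ 1) :
    ∑ p ∈ (range (x + 1)).filter (fun p => p.Prime), (∑ u ∈ range p, GG n W L X p u) / p ≤
      (1 + (n : ℝ) ^ (2 * n) * 2 ^ n + 4 * n) * Real.sqrt x := by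
  have hx1 : (1 : ℝ) ≤ x := by exact_mod_cast hx
  have hx0 : (0 : ℝ) < x := by linarith
  have hn0 : (0 : ℝ) < n := by exact_mod_cast (by omega : 0 < n)
  have hy1 : (1 : ℝ) ≤ (x : ℝ) ^ (1 / (n : ℝ)) := Real.one_le_rpow hx1 (by positivity)
  have hW1 : 1 ≤ W := by
    rw [hW]
    exact Nat.le_floor (by exact_mod_cast hy1)
  have hWle : (W : ℝ) ≤ (x : ℝ) ^ (1 / (n : ℝ)) := by
    rw [hW]
    exact Nat.floor_le (by positivity)
  have hWge : (x : ℝ) ^ (1 / (n : ℝ)) / 2 ≤ W := by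
    have h1 : (x : ℝ) ^ (1 / (n : ℝ)) < W + 1 := by rw [hW]; exact Nat.lt_floor_add_one _
    have h2 : (1 : ℝ) ≤ W := by exact_mod_cast hW1
    linarith
  have hsx1 : 1 ≤ Real.sqrt x := Real.one_le_sqrt.2 hx1
  have hWs : (W : ℝ) ≤ Real.sqrt x := by
    rw [Real.sqrt_eq_rpow]
    refine hWle.trans (Real.rpow_le_rpow_of_exponent_le hx1 ?_)
    have : (2 : ℝ) ≤ n := by exact_mod_cast hn
    exact one_div_le_one_div_of_le (by norm_num) this
  have hxW : (x : ℝ) / (W : ℝ) ^ n ≤ 2 ^ n := by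
    have hW0 : (0 : ℝ) < W := by exact_mod_cast hW1
    rw [div_le_iff₀ (by positivity), ← mul_pow]
    have h1 : (x : ℝ) = ((x : ℝ) ^ (1 / (n : ℝ))) ^ n := by
      rw [← Real.rpow_natCast, ← Real.rpow_mul hx0.le, one_div, inv_mul_cancel₀ hn0.ne',
        Real.rpow_one]
    calc (x : ℝ) = ((x : ℝ) ^ (1 / (n : ℝ))) ^ n := h1
      _ ≤ (2 * W) ^ n := pow_le_pow_left₀ (by positivity) (by linarith) _
  have hb : ∀ p ∈ (range (x + 1)).filter (fun p => p.Prime),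
      (∑ u ∈ range p, GG n W L X p u) / p ≤
        (if p < W then 1 else 0) + ((n : ℝ) ^ (2 * n) / (W : ℝ) ^ n + 2 * n / Real.sqrt p) := by
    intro p hp
    rw [mem_filter] at hp
    have hpp := hp.2
    have hp0 : (0 : ℝ) < p := by exact_mod_cast hpp.pos
    have hpos : 0 ≤ (n : ℝ) ^ (2 * n) / (W : ℝ) ^ n + 2 * n / Real.sqrt p := by positivity
    by_cases hpW : p < W
    · rw [if_pos hpW]
      have h1 : (∑ u ∈ range p, GG n W L X p u) / p ≤ 1 := by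
        rw [div_le_one hp0]
        calc ∑ u ∈ range p, GG n W L X p u ≤ ∑ u ∈ range p, (1 : ℝ) :=
              sum_le_sum fun u _ => GG_le_one n W L hL hW1 X p u (hX p hpp).1
          _ = p := by rw [sum_const, card_range, nsmul_eq_mul, mul_one]
      linarith
    · rw [if_neg hpW]
      have := GG_mean n W (by omega) L hL hW1 X p hpp (by omega) (hX p hpp).1 (hX p hpp).2
      linarith
  refine (sum_le_sum hb).trans ?_
  rw [sum_add_distrib]
  have hsub : (range (x + 1)).filter (fun p => p.Prime) ⊆ Icc 1 x := by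
    intro p hp
    rw [mem_filter, mem_range] at hp
    rw [mem_Icc]
    exact ⟨hp.2.one_lt.le, by omega⟩
  have h1 : ∑ p ∈ (range (x + 1)).filter (fun p => p.Prime), (if p < W then (1 : ℝ) else 0) ≤ W := by
    rw [← sum_filter, sum_const, nsmul_eq_mul, mul_one]
    have : (((range (x + 1)).filter (fun p => p.Prime)).filter (fun p => p < W)).card ≤ W := by
      refine (card_le_card (t := range W) ?_).trans (le_of_eq (card_range W))
      intro p hp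
      rw [mem_filter] at hp
      exact mem_range.2 hp.2
    exact_mod_cast this
  have h2 : ∑ p ∈ (range (x + 1)).filter (fun p => p.Prime),
      ((n : ℝ) ^ (2 * n) / (W : ℝ) ^ n + 2 * n / Real.sqrt p) ≤
      (n : ℝ) ^ (2 * n) * 2 ^ n + 4 * n * Real.sqrt x := by
    refine (sum_le_sum_of_subset_of_nonneg hsub fun p _ _ => by positivity).trans ?_
    rw [sum_add_distrib, sum_const, Nat.card_Icc, nsmul_eq_mul]
    have h3 : ((x + 1 - 1 : ℕ) : ℝ) = x := by simp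
    rw [h3]
    have h4 : ∑ m ∈ Icc 1 x, 2 * (n : ℝ) / Real.sqrt m = 2 * n * ∑ m ∈ Icc 1 x, 1 / Real.sqrt m := by
      rw [mul_sum]
      exact sum_congr rfl fun m _ => by ring
    rw [h4]
    have h5 := mul_le_mul_of_nonneg_left (sum_inv_sqrt x) (by positivity : (0 : ℝ) ≤ 2 * n)
    have h6 : (x : ℝ) * ((n : ℝ) ^ (2 * n) / (W : ℝ) ^ n) = (n : ℝ) ^ (2 * n) * (x / (W : ℝ) ^ n) := by
      ring
    have h7 := mul_le_mul_of_nonneg_left hxW (by positivity : (0 : ℝ) ≤ (n : ℝ) ^ (2 * n))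
    rw [h6]
    linarith
  have h3 : (n : ℝ) ^ (2 * n) * 2 ^ n ≤ (n : ℝ) ^ (2 * n) * 2 ^ n * Real.sqrt x :=
    le_mul_of_one_le_right (by positivity) hsx1
  nlinarith

open Classical in
/-- the deterministic part -/
lemma card_bad (n : ℕ) (hn : 2 ≤ n) (δ : ℝ) (hδ : 0 < δ) : ∃ x₀ : ℕ, ∀ x : ℕ, x₀ ≤ x →
    ∀ a : ℝ, 0 ≤ a → ∀ X : (p : ℕ) → Finset (DirichletCharacter ℂ p),
    (∀ p : ℕ, p.Prime → ((X p).card : ℝ) ≤ (x : ℝ) ^ a ∧ ∀ χ ∈ X p, χ ≠ 1) →
    ∀ (W : ℕ), W = ⌊(x : ℝ) ^ (1 / (n : ℝ))⌋₊ → ∀ M : ℕ,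
    |∑ p ∈ (range (x + 1)).filter (fun p => p.Prime), GG n W ((x : ℝ) ^ a) X p M -
        ∑ p ∈ (range (x + 1)).filter (fun p => p.Prime),
          (∑ u ∈ range p, GG n W ((x : ℝ) ^ a) X p u) / p| ≤
      Real.sqrt (max 1 (∑ p ∈ (range (x + 1)).filter (fun p => p.Prime),
          (∑ u ∈ range p, GG n W ((x : ℝ) ^ a) X p u) / p)) * (x : ℝ) ^ (1 / 8 : ℝ) →
    ((bad n δ X x M).card : ℝ) ≤ (x : ℝ) ^ (1 / 2 + a + 4 * δ) := by
  obtain ⟨C, hC⟩ : ∃ C : ℝ, C = 1 + (n : ℝ) ^ (2 * n) * 2 ^ n + 4 * n := ⟨_, rfl⟩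
  have hC1 : 1 ≤ C := by
    rw [hC]
    have : (0 : ℝ) ≤ (n : ℝ) ^ (2 * n) * 2 ^ n + 4 * n := by positivity
    linarith
  have hev : ∀ᶠ x : ℕ in Filter.atTop, 2 * C * 2 ^ (2 * n + 1) ≤ (x : ℝ) ^ δ := by
    have h1 : Filter.Tendsto (fun x : ℝ => x ^ δ) Filter.atTop Filter.atTop := tendsto_rpow_atTop hδ
    exact (h1.comp tendsto_natCast_atTop_atTop).eventually (Filter.eventually_ge_atTop _)
  obtain ⟨x₁, hx₁⟩ := Filter.eventually_atTop.1 hev
  refine ⟨x₁ + 1, fun x hx a ha X hX W hW M hM => ?_⟩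
  have hxd := hx₁ x (by omega)
  have hx1 : (1 : ℝ) ≤ x := by exact_mod_cast (by omega : 1 ≤ x)
  have hx0 : (0 : ℝ) < x := by linarith
  have hn0 : (0 : ℝ) < n := by exact_mod_cast (by omega : 0 < n)
  obtain ⟨L, hLd⟩ : ∃ L : ℝ, L = (x : ℝ) ^ a := ⟨_, rfl⟩
  rw [← hLd] at hM hX
  have hL0 : 0 < L := by rw [hLd]; positivity
  have hμ := sum_mean n hn x (by omega) W hW L hL0 X hX
  rw [← hC] at hμ
  obtain ⟨μ, hμd⟩ : ∃ μ : ℝ, μ = ∑ p ∈ (range (x + 1)).filter (fun p => p.Prime),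
    (∑ u ∈ range p, GG n W L X p u) / p := ⟨_, rfl⟩
  rw [← hμd] at hμ hM
  obtain ⟨S₁, hS₁⟩ : ∃ S₁ : ℝ, S₁ = ∑ p ∈ (range (x + 1)).filter (fun p => p.Prime),
    GG n W L X p M := ⟨_, rfl⟩
  rw [← hS₁] at hM
  have hs1 : 1 ≤ Real.sqrt x := Real.one_le_sqrt.2 hx1
  have hsum : S₁ ≤ 2 * C * Real.sqrt x := by
    have h1 := (abs_le.1 hM).2
    have h2 : Real.sqrt (max 1 μ) ≤ C * (x : ℝ) ^ (1 / 4 : ℝ) := by
      have h3 : max 1 μ ≤ C * Real.sqrt x := max_le (by nlinarith) hμ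
      have h4 : C * Real.sqrt x ≤ (C * (x : ℝ) ^ (1 / 4 : ℝ)) ^ 2 := by
        rw [mul_pow, ← Real.rpow_natCast, ← Real.rpow_natCast, ← Real.rpow_mul hx0.le,
          Real.sqrt_eq_rpow]
        have : ((1 : ℝ) / 4 * ((2 : ℕ) : ℝ)) = 1 / 2 := by norm_num
        rw [this]
        have h5 : C ≤ C ^ (((2 : ℕ) : ℝ)) := by
          rw [Real.rpow_natCast]
          nlinarith
        exact mul_le_mul_of_nonneg_right h5 (by positivity)
      rw [← Real.sqrt_sq (by positivity : (0 : ℝ) ≤ C * (x : ℝ) ^ (1 / 4 : ℝ))]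
      exact Real.sqrt_le_sqrt (h3.trans h4)
    have h3 : Real.sqrt (max 1 μ) * (x : ℝ) ^ (1 / 8 : ℝ) ≤ C * Real.sqrt x := by
      calc Real.sqrt (max 1 μ) * (x : ℝ) ^ (1 / 8 : ℝ) ≤
            C * (x : ℝ) ^ (1 / 4 : ℝ) * (x : ℝ) ^ (1 / 8 : ℝ) :=
            mul_le_mul_of_nonneg_right h2 (by positivity)
        _ = C * (x : ℝ) ^ (1 / 4 + 1 / 8 : ℝ) := by rw [mul_assoc, ← Real.rpow_add hx0]
        _ ≤ C * Real.sqrt x := by
            rw [Real.sqrt_eq_rpow]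
            exact mul_le_mul_of_nonneg_left
              (Real.rpow_le_rpow_of_exponent_le hx1 (by norm_num)) (by linarith)
    linarith
  obtain ⟨V, hV⟩ : ∃ V : ℝ, V = (x : ℝ) ^ ((1 - δ) / n) := ⟨_, rfl⟩
  have hV0 : 0 < V := by rw [hV]; positivity
  have hy1 : (1 : ℝ) ≤ (x : ℝ) ^ (1 / (n : ℝ)) := Real.one_le_rpow hx1 (by positivity)
  have hW1 : 1 ≤ W := by
    rw [hW]
    exact Nat.le_floor (by exact_mod_cast hy1)
  have hW0 : (0 : ℝ) < W := by exact_mod_cast hW1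
  have hWle : (W : ℝ) ≤ (x : ℝ) ^ (1 / (n : ℝ)) := by
    rw [hW]
    exact Nat.floor_le (by positivity)
  have hlow : ((bad n δ X x M).card : ℝ) * ((V / (2 * W)) ^ (2 * n + 1) / L) ≤ S₁ := by
    rw [hS₁, ← nsmul_eq_mul, ← sum_const]
    refine (sum_le_sum fun p hp => ?_).trans
      (sum_le_sum_of_subset_of_nonneg (?_ : bad n δ X x M ⊆ _)
        fun p _ _ => GG_nonneg n W L hL0 X p M)
    · unfold bad at hp
      rw [mem_filter] at hp
      obtain ⟨-, -, χ, hχ, H, hH, hb⟩ := hp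
      refine GG_ge n W L V hL0 hW1 hV0 X p M χ hχ H ?_ (by rw [hV]; exact hb)
      rw [hW]
      exact Nat.le_floor hH
    · unfold bad
      intro p hp
      rw [mem_filter] at hp ⊢
      exact ⟨hp.1, hp.2.1⟩
  have hratio : (2 ^ (2 * n + 1) * (x : ℝ) ^ (3 * δ))⁻¹ ≤ (V / (2 * W)) ^ (2 * n + 1) := by
    have h1 : (x : ℝ) ^ (-(δ / n)) / 2 ≤ V / (2 * W) := by
      rw [div_le_div_iff₀ (by norm_num) (by positivity)]
      have h2 : (x : ℝ) ^ (-(δ / n)) * W ≤ V := by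
        calc (x : ℝ) ^ (-(δ / n)) * W ≤ (x : ℝ) ^ (-(δ / n)) * (x : ℝ) ^ (1 / (n : ℝ)) :=
              mul_le_mul_of_nonneg_left hWle (by positivity)
          _ = V := by
              rw [← Real.rpow_add hx0, hV]
              congr 1
              ring
      linarith
    have h2 : ((x : ℝ) ^ (-(δ / n)) / 2) ^ (2 * n + 1) ≤ (V / (2 * W)) ^ (2 * n + 1) :=
      pow_le_pow_left₀ (by positivity) h1 _
    refine le_trans ?_ h2
    rw [div_pow, mul_inv, div_eq_mul_inv, mul_comm]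
    refine mul_le_mul_of_nonneg_right ?_ (by positivity)
    rw [← Real.rpow_neg hx0.le, ← Real.rpow_natCast, ← Real.rpow_mul hx0.le]
    refine Real.rpow_le_rpow_of_exponent_le hx1 ?_
    have h3 : δ / n * ((2 * n + 1 : ℕ) : ℝ) ≤ 3 * δ := by
      rw [div_mul_eq_mul_div, div_le_iff₀ hn0]
      push_cast
      have : (1 : ℝ) ≤ n := by exact_mod_cast (by omega : 1 ≤ n)
      nlinarith
    linarith
  have hfin : ((bad n δ X x M).card : ℝ) ≤
      L * (2 * C * Real.sqrt x) * (2 ^ (2 * n + 1) * (x : ℝ) ^ (3 * δ)) := by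
    have hcn : (0 : ℝ) ≤ (bad n δ X x M).card := Nat.cast_nonneg _
    have h1 : ((bad n δ X x M).card : ℝ) * ((2 ^ (2 * n + 1) * (x : ℝ) ^ (3 * δ))⁻¹ / L) ≤
        2 * C * Real.sqrt x := by
      refine le_trans (mul_le_mul_of_nonneg_left ?_ hcn) (hlow.trans hsum)
      exact div_le_div_of_nonneg_right hratio hL0.le
    have h2 : 0 < 2 ^ (2 * n + 1) * (x : ℝ) ^ (3 * δ) := by positivity
    rw [div_eq_mul_inv, ← mul_inv, ← div_eq_mul_inv, div_le_iff₀ (by positivity)] at h1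
    calc ((bad n δ X x M).card : ℝ) ≤
          2 * C * Real.sqrt x * (2 ^ (2 * n + 1) * (x : ℝ) ^ (3 * δ) * L) := h1
      _ = _ := by ring
  refine hfin.trans ?_
  calc L * (2 * C * Real.sqrt x) * (2 ^ (2 * n + 1) * (x : ℝ) ^ (3 * δ))
      = (2 * C * 2 ^ (2 * n + 1)) * (L * Real.sqrt x * (x : ℝ) ^ (3 * δ)) := by ring
    _ ≤ (x : ℝ) ^ δ * (L * Real.sqrt x * (x : ℝ) ^ (3 * δ)) :=
        mul_le_mul_of_nonneg_right hxd (by positivity)
    _ = (x : ℝ) ^ (1 / 2 + a + 4 * δ) := by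
        rw [hLd, Real.sqrt_eq_rpow, ← Real.rpow_add hx0, ← Real.rpow_add hx0, ← Real.rpow_add hx0]
        congr 1
        ring

open Classical in
/-- the law for a few changed digits -/
theorem few (b : ℕ) (hb : 2 ≤ b) (A : ℝ) : ∃ c : ℝ, 0 < c ∧
    ∀ (n : ℕ), 2 ≤ n → ∀ δ : ℝ, 0 < δ → ∃ y₀ : ℕ,
    ∀ K r y : ℕ, 2 * r ≤ K → y₀ ≤ y → ∀ N : ℕ, N < b ^ K →
    ∀ f : ℕ → ℕ, (∀ j, f j < b ∧ f j ≠ N / b ^ j % b) → ∀ a : ℝ, 0 ≤ a →
    ∀ X : ℕ → (p : ℕ) → Finset (DirichletCharacter ℂ p),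
    (∀ x p : ℕ, y ≤ x → p.Prime → ((X x p).card : ℝ) ≤ (x : ℝ) ^ a ∧ ∀ χ ∈ X x p, χ ≠ 1) →
    ((((powersetCard r (range K)).filter (fun S => ¬ ∀ x : ℕ, y ≤ x →
      (x : ℝ) ≤ Real.exp (c * r) →
      ((bad n δ (X x) x (Pool.Agent.TH894.SM.change b K N f S)).card : ℝ) ≤
        (x : ℝ) ^ (1 / 2 + a + 4 * δ))).card : ℕ) : ℝ) ≤ (y : ℝ) ^ (-A) * (K.choose r : ℝ) := by
  obtain ⟨c, hc, x₁, h⟩ := Pool.Agent.TH894.NE.law3 b 1 hb le_rfl (1 / 8) A 0 (by norm_num)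
  refine ⟨c, hc, fun n hn δ hδ => ?_⟩
  obtain ⟨x₂, h2⟩ := card_bad n hn δ hδ
  refine ⟨x₁ + x₂ + 1, fun K r y hrK hy N hN f hf a ha X hX => ?_⟩
  obtain ⟨W, hW⟩ : ∃ W : ℕ → ℕ, W = fun x : ℕ => ⌊(x : ℝ) ^ (1 / (n : ℝ))⌋₊ := ⟨_, rfl⟩
  obtain ⟨B, hB⟩ : ∃ B : Finset (Finset ℕ), B = (powersetCard r (range K)).filter (fun S =>
      ¬ ∀ x : ℕ, y ≤ x → (x : ℝ) ≤ Real.exp (c * r) →
      ((bad n δ (X x) x (Pool.Agent.TH894.SM.change b K N f S)).card : ℝ) ≤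
        (x : ℝ) ^ (1 / 2 + a + 4 * δ)) := ⟨_, rfl⟩
  rw [← hB]
  obtain ⟨Ex, hEx⟩ : ∃ Ex : Finset (Fin 1 → Finset ℕ), Ex = B.image (fun S => fun _ => S) := ⟨_, rfl⟩
  have hcard : Ex.card = B.card := by
    rw [hEx, card_image_of_injective]
    intro S T hST
    exact congrFun hST 0
  have hWx : ∀ x : ℕ, 1 ≤ x → 1 ≤ W x := by
    intro x hx
    rw [hW]
    refine Nat.le_floor ?_
    have : (1 : ℝ) ≤ x := by exact_mod_cast hx
    simpa using Real.one_le_rpow this (by positivity : (0 : ℝ) ≤ 1 / (n : ℝ))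
  have hLx : ∀ x : ℕ, 1 ≤ x → 0 < (x : ℝ) ^ a := by
    intro x hx
    have : (0 : ℝ) < x := by exact_mod_cast hx
    positivity
  have h3 := h (fun _ => r) (fun _ => K) y (fun _ => hrK) (by omega) (fun _ => N) (fun _ => hN)
    (fun _ => f) (fun _ => hf) ℕ (fun x => if x < y then ∅ else {x}) ?_ ℕ
    (fun x _ => (range (x + 1)).filter (fun p => p.Prime)) (fun _ p => p) ?_ ?_
    (fun l p m => GG n (W l) ((l : ℝ) ^ a) (X l) p (m 0)) ?_ ?_ Ex ?_ ?_
  · rw [hcard] at h3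
    refine h3.trans (le_of_eq ?_)
    rw [Fin.prod_univ_one]
  · intro x _
    rw [Real.rpow_zero]
    show (((if x < y then ∅ else {x}) : Finset ℕ).card : ℝ) ≤ 1
    split_ifs <;> simp
  · intro x l _ p hp
    rw [mem_filter, mem_range] at hp
    exact ⟨hp.2.one_lt.le, by omega⟩
  · intro x l _ p hp p' hp' hne
    rw [mem_filter] at hp hp'
    exact (Nat.coprime_primes hp.2 hp'.2).2 hne
  · intro x l _ p _ m
    show GG n (W l) ((l : ℝ) ^ a) (X l) p (m 0) = GG n (W l) ((l : ℝ) ^ a) (X l) p (m 0 % p)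
    unfold GG
    congr 1
    refine sum_congr rfl fun χ _ => sum_congr rfl fun H _ => ?_
    rw [cs_mod]
  · intro x l hl p hp m
    have hl' : l ∈ (if x < y then ∅ else {x} : Finset ℕ) := hl
    split_ifs at hl' with hxy
    · simp at hl'
    · rw [mem_singleton] at hl'
      subst hl'
      rw [mem_filter] at hp
      show |GG n (W l) ((l : ℝ) ^ a) (X l) p (m 0)| ≤ 1
      rw [abs_of_nonneg (GG_nonneg n (W l) _ (hLx l (by omega)) (X l) p _)]
      exact GG_le_one n (W l) _ (hLx l (by omega)) (hWx l (by omega)) (X l) p _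
        (hX l p (by omega) hp.2).1
  · intro S hS
    rw [hEx, mem_image] at hS
    obtain ⟨T, hT, rfl⟩ := hS
    rw [hB, mem_filter] at hT
    rw [Fintype.mem_piFinset]
    exact fun _ => hT.1
  · intro S hS
    rw [hEx, mem_image] at hS
    obtain ⟨T, hT, rfl⟩ := hS
    rw [hB, mem_filter] at hT
    obtain ⟨-, hT⟩ := hT
    push Not at hT
    obtain ⟨x, hyx, hxr, hbad⟩ := hT
    have hx1 : 1 ≤ x := by omega
    have hx0 : (0 : ℝ) < x := by exact_mod_cast hx1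
    refine ⟨x, hyx, fun _ => (Real.log_le_iff_le_exp hx0).2 hxr, x, ?_, ?_⟩
    · show x ∈ (if x < y then ∅ else {x} : Finset ℕ)
      rw [if_neg (by omega)]
      exact mem_singleton_self x
    · by_contra hcon
      rw [not_lt] at hcon
      refine absurd (h2 x (by omega) a ha (X x) (fun p hp => hX x p hyx hp) (W x) (by rw [hW])
        (Pool.Agent.TH894.SM.change b K N f T) ?_) (not_le.2 hbad)
      have hm : ∀ p ∈ (range (x + 1)).filter (fun p => p.Prime),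
          mean 1 p (fun m => GG n (W x) ((x : ℝ) ^ a) (X x) p (m 0)) =
          (∑ u ∈ range p, GG n (W x) ((x : ℝ) ^ a) (X x) p u) / p := fun p _ =>
        mean_one p (fun u => GG n (W x) ((x : ℝ) ^ a) (X x) p u)
      have hm2 : ∀ p ∈ (range (x + 1)).filter (fun p => p.Prime),
          mean 1 p (fun m => GG n (W x) ((x : ℝ) ^ a) (X x) p (m 0) ^ 2) ≤
          (∑ u ∈ range p, GG n (W x) ((x : ℝ) ^ a) (X x) p u) / p := by
        intro p hp
        rw [mem_filter] at hp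
        rw [mean_one p (fun u => GG n (W x) ((x : ℝ) ^ a) (X x) p u ^ 2)]
        refine div_le_div_of_nonneg_right (sum_le_sum fun u _ => ?_) (Nat.cast_nonneg p)
        have h4 := GG_nonneg n (W x) _ (hLx x hx1) (X x) p u
        have h5 := GG_le_one n (W x) _ (hLx x hx1) (hWx x hx1) (X x) p u (hX x p hyx hp.2).1
        nlinarith
      have h6 : ∑ p ∈ (range (x + 1)).filter (fun p => p.Prime),
          mean 1 p (fun m => GG n (W x) ((x : ℝ) ^ a) (X x) p (m 0)) =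
          ∑ p ∈ (range (x + 1)).filter (fun p => p.Prime),
          (∑ u ∈ range p, GG n (W x) ((x : ℝ) ^ a) (X x) p u) / p := sum_congr rfl hm
      have h7 := sum_le_sum hm2
      have h8 : Real.sqrt (max 1 (∑ p ∈ (range (x + 1)).filter (fun p => p.Prime),
          mean 1 p (fun m => GG n (W x) ((x : ℝ) ^ a) (X x) p (m 0) ^ 2))) ≤
          Real.sqrt (max 1 (∑ p ∈ (range (x + 1)).filter (fun p => p.Prime),
          (∑ u ∈ range p, GG n (W x) ((x : ℝ) ^ a) (X x) p u) / p)) :=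
        Real.sqrt_le_sqrt (max_le_max le_rfl h7)
      rw [h6] at hcon
      exact hcon.trans (mul_le_mul_of_nonneg_right h8 (by positivity))

end Pool.Agent.Q213.CC
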